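import Pool.Agent.Y56.BK.Df

set_option autoImplicit false

namespace Pool.Agent.Y56.BK

open H89R3.BK

/-- the coefficients of `(1 + t) ^ n + ∑_{j < n} c j * t * (1 + t) ^ j` -/
def bt (n : ℕ) (c : ℕ → ℕ) : ℕ → ℕ
  | 0 => 1
  | k + 1 => n.choose (k + 1) + ∑ j ∈ Finset.range n, c j * j.choose k

/-- shifted coefficients -/
def sh (s : ℕ) (c : ℕ → ℕ) : ℕ → ℕ
  | 0 => s
  | j + 1 => c j

theorem bt_succ (n s : ℕ) (c : ℕ → ℕ) (m : ℕ) :
    bt (n + 1) (sh s c) (m + 1) = bt n c (m + 1) + bt n c m + if m = 0 then s else 0 := by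
  have e : ∑ j ∈ Finset.range (n + 1), sh s c j * j.choose m =
      s * Nat.choose 0 m + ∑ j ∈ Finset.range n, c j * (j + 1).choose m := by
    rw [Finset.sum_range_succ', add_comm]
    rfl
  rw [bt, e, Nat.choose_succ_succ]
  cases m with
  | zero =>
    simp only [bt, Nat.choose_zero_right, Nat.choose_one_right, mul_one, if_true, zero_add]
    omega
  | succ m =>
    simp only [bt, Nat.choose_zero_succ, mul_zero, zero_add, Nat.choose_succ_succ, mul_add,
      Finset.sum_add_distrib]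
    rw [if_neg (by omega)]
    simp only [Nat.succ_eq_add_one]
    omega

variable {K : Type} [Field K] {L : Type} [LieRing L] [LieAlgebra K L]
variable {ℳ : ℕ → Submodule K L} (h : IsBlochKato K ℳ)

include h

theorem step {W : Submodule K L} (hW : W ≤ ℳ 1) (hb : W ≠ ⊥)
    (hK : ∀ s : Finset K, s.card + 1 ≤ Module.finrank K W → ∃ t, t ∉ s) :
    ∃ N ≤ W, ∃ s : ℕ, Module.finrank K N < Module.finrank K W ∧
      ∀ m, xn (ℳ 1) W (m + 1) = xn (ℳ 1) N (m + 1) + xn (ℳ 1) N m + if m = 0 then s else 0 := by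
  have hfW := fin_of_le h hW
  let S : Set ℕ := {r | ∃ B ≤ W, ∃ v ∈ W, v ∉ B ∧ Module.finrank K W = Module.finrank K B + 1 ∧
    Module.finrank K ↥(NN B v) = r}
  have hSb : BddAbove S := by
    refine ⟨Module.finrank K W, ?_⟩
    rintro r ⟨B, hB, v, hv, hvB, -, rfl⟩
    exact Submodule.finrank_mono ((NN_le _ _).trans hB)
  have hSn : S.Nonempty := by
    obtain ⟨v, hv, hv0⟩ := Submodule.exists_mem_ne_zero_of_ne_bot hb
    obtain ⟨C, hC⟩ := Submodule.exists_isCompl (K ∙ v)
    have hvC : v ∉ W ⊓ C := by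
      rintro ⟨-, hvC⟩
      have : v ∈ (K ∙ v) ⊓ C := ⟨Submodule.mem_span_singleton_self v, hvC⟩
      rw [hC.inf_eq_bot] at this
      exact hv0 ((Submodule.mem_bot K).1 this)
    have hvW : K ∙ v ≤ W := by
      rw [Submodule.span_singleton_le_iff_mem]
      exact hv
    have hsup : (W ⊓ C) ⊔ K ∙ v = W := by
      rw [inf_sup_assoc_of_le _ hvW, sup_comm, hC.sup_eq_top, inf_top_eq]
    have := fin_of_le h (inf_le_left.trans hW : W ⊓ C ≤ ℳ 1)
    have hr := finrank_sup_span hvC
    rw [hsup] at hr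
    exact ⟨_, W ⊓ C, inf_le_left, v, hv, hvC, hr, rfl⟩
  obtain ⟨B, hB, v, hv, hvB, hdim, hr⟩ := Nat.sSup_mem hSn hSb
  have hmax : ∀ B' ≤ W, ∀ v' ∈ W, v' ∉ B' → Module.finrank K W = Module.finrank K B' + 1 →
      Module.finrank K ↥(NN B' v') ≤ Module.finrank K ↥(NN B v) := by
    intro B' hB' v' hv' hvB' hd'
    rw [hr]
    exact le_csSup hSb ⟨B', hB', v', hv', hvB', hd', rfl⟩
  have hBM : B ≤ ℳ 1 := hB.trans hW
  have hfB := fin_of_le h hBM
  have hsup : B ⊔ K ∙ v = W := by
    apply Submodule.eq_of_le_of_finrank_eq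
    · refine sup_le hB ?_
      rw [Submodule.span_singleton_le_iff_mem]
      exact hv
    · rw [finrank_sup_span hvB, hdim]
  have hNB : NN B v ≤ B := NN_le B v
  have hNM : NN B v ≤ ℳ 1 := hNB.trans hBM
  have hNf : Module.finrank K ↥(NN B v) ≤ Module.finrank K B := Submodule.finrank_mono hNB
  -- the relations of `B` live in `NN B v`
  have hflag : ∀ m, xn (ℳ 1) (NN B v) (m + 2) = xn (ℳ 1) B (m + 2) := by
    intro m
    have key := flag_induction h hBM
      (p := fun _ A => NN B v ≤ A → xn (ℳ 1) A (m + 2) = xn (ℳ 1) B (m + 2))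
      (fun _ => rfl) (by
        intro k A hA u hu huA ih hNA
        have h1 := ih (hNA.trans le_sup_left)
        rw [xn_succ h (hA.trans hBM) (hBM hu) huA,
          main_lemma hB hv hvB hdim hK hmax hNA hA hu huA, xn_bot, add_zero] at h1
        exact h1)
    obtain ⟨k, hk⟩ := exists_add h hBM hNB
    exact key k (NN B v) hNB hk le_rfl
  refine ⟨NN B v, hNB.trans hB, Module.finrank K B - Module.finrank K ↥(NN B v), by omega, ?_⟩
  intro m
  rw [← hsup, xn_succ h hBM (hW hv) hvB]
  cases m with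
  | zero =>
    rw [xn_one h hBM, xn_one h hNM, if_pos rfl]
    omega
  | succ m =>
    have h2 : xn (ℳ 1) (NN B v) (m + 1 + 1) = xn (ℳ 1) B (m + 1 + 1) := hflag m
    rw [if_neg (by omega), h2]
    omega

theorem main (D : ℕ) (hK : ∀ s : Finset K, s.card + 1 ≤ D → ∃ t, t ∉ s) :
    ∀ (d : ℕ) (W : Submodule K L), W ≤ ℳ 1 → Module.finrank K W = d → d ≤ D →
      ∃ (n : ℕ) (c : ℕ → ℕ), ∀ k, xn (ℳ 1) W k = bt n c k := by
  intro d
  induction d using Nat.strong_induction_on with
  | _ d ih =>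
    intro W hW hd hdD
    by_cases hb : W = ⊥
    · refine ⟨0, fun _ => 0, ?_⟩
      intro k
      cases k with
      | zero => rw [xn_zero h hW]; rfl
      | succ k =>
        rw [hb, xn_bot]
        simp [bt]
    · obtain ⟨N, hN, s, hlt, hs⟩ := step h hW hb (fun t ht => hK t (ht.trans (by omega)))
      obtain ⟨n, c, hc⟩ := ih _ (by omega) N (hN.trans hW) rfl (by omega)
      refine ⟨n + 1, sh s c, ?_⟩
      intro k
      cases k with
      | zero => rw [xn_zero h hW]; rfl
      | succ k => rw [hs k, hc, hc, bt_succ]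

/-- **Theorem.** -/
theorem betti_main (n : ℕ) (hn : HasCd K L n)
    (hK : ∀ s : Finset K, s.card + 1 ≤ betti K L 1 → ∃ t, t ∉ s) :
    ∃ c : ℕ → ℕ, ∀ k, betti K L (k + 1) =
      n.choose (k + 1) + ∑ j ∈ Finset.range n, c j * j.choose k := by
  have hb1 : betti K L 1 = Module.finrank K (ℳ 1) := by
    rw [betti_eq h, xn_one h le_rfl]
  obtain ⟨n', c, hc⟩ := main h (betti K L 1) hK _ (ℳ 1) le_rfl rfl hb1.ge
  have hbt : ∀ k, betti K L (k + 1) = bt n' c (k + 1) := fun k => by rw [betti_eq h, hc]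
  have hnt : ∀ k, Nontrivial (Coh K L (k + 1)) ↔ betti K L (k + 1) ≠ 0 := by
    intro k
    have := coh_finite h k
    constructor
    · intro hnt
      exact (Module.finrank_pos (R := K) (M := Coh K L (k + 1))).ne'
    · intro hne
      exact Module.nontrivial_of_finrank_pos (R := K) (Nat.pos_of_ne_zero hne)
  have hnn : n' = n := by
    apply le_antisymm
    · cases n' with
      | zero => exact Nat.zero_le _
      | succ n' =>
        apply hn.2
        change Nontrivial (Coh K L (n' + 1))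
        rw [hnt, hbt, bt, Nat.choose_self]
        omega
    · by_contra hcon
      push Not at hcon
      obtain ⟨k, rfl⟩ : ∃ k, n = k + 1 := ⟨n - 1, by omega⟩
      have h1 := (hnt k).1 hn.1
      apply h1
      rw [hbt, bt, Nat.choose_eq_zero_of_lt hcon, zero_add]
      apply Finset.sum_eq_zero
      intro j hj
      rw [Finset.mem_range] at hj
      rw [Nat.choose_eq_zero_of_lt (by omega), mul_zero]
  subst hnn
  exact ⟨c, fun k => hbt k⟩

end Pool.Agent.Y56.BK
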