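import Mathlib

set_option autoImplicit false

namespace Pool.Agent.Y56.BK

open Polynomial Matrix

/-- linear independence is stable under a small deformation -/
theorem deform {K : Type*} [Field K] {L : Type*} [AddCommGroup L] [Module K L] {ι : Type*}
    [Fintype ι] [DecidableEq ι]
    (hK : ∀ s : Finset K, s.card ≤ Fintype.card ι + 1 → ∃ t, t ∉ s)
    (n m : ι → L) (hn : LinearIndependent K n) :
    ∃ t : K, t ≠ 0 ∧ LinearIndependent K (fun i => n i + t • m i) := by
  classical
  obtain ⟨g, hg⟩ := LinearMap.exists_leftInverse_of_injective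
    (Fintype.linearCombination K n) (LinearMap.ker_eq_bot.mpr
      (hn.fintypeLinearCombination_injective))
  have hgn : ∀ i, g (n i) = Pi.single i 1 := by
    intro i
    have h1 : Fintype.linearCombination K n (Pi.single i 1) = n i := by
      rw [Fintype.linearCombination_apply_single, one_smul]
    rw [← h1]
    exact congrArg (fun f => f (Pi.single i 1)) hg
  let M : Matrix ι ι K := Matrix.of fun i j => g (m i) j
  let P : K[X] := det ((X : K[X]) • M.map C + (1 : Matrix ι ι K).map C)
  have hP0 : P.coeff 0 = 1 := by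
    change (det ((X : K[X]) • M.map C + (1 : Matrix ι ι K).map C)).coeff 0 = 1
    rw [coeff_det_X_add_C_zero, det_one]
  have hPne : P ≠ 0 := by
    intro h
    rw [h, coeff_zero] at hP0
    exact zero_ne_one hP0
  have hQne : X * P ≠ 0 := mul_ne_zero X_ne_zero hPne
  obtain ⟨t, ht⟩ := hK (X * P).roots.toFinset (by
    refine (Multiset.toFinset_card_le _).trans ((card_roots' _).trans ?_)
    rw [natDegree_X_mul hPne]
    exact Nat.succ_le_succ (natDegree_det_X_add_C_le M 1))
  rw [Multiset.mem_toFinset, mem_roots hQne, IsRoot.def, eval_mul, eval_X, mul_eq_zero,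
    not_or] at ht
  obtain ⟨ht0, htP⟩ := ht
  refine ⟨t, ht0, ?_⟩
  have hdet : (t • M + 1).det ≠ 0 := by
    have e : eval t P = (t • M + 1).det := by
      change eval t (det _) = _
      rw [← coe_evalRingHom, RingHom.map_det]
      congr 1
      ext i j
      simp only [RingHom.mapMatrix_apply, Matrix.map_apply, Matrix.add_apply, Matrix.smul_apply, smul_eq_mul,
        coe_evalRingHom, eval_add, eval_mul, eval_X, eval_C]
    rwa [← e]
  have hrows := linearIndependent_rows_of_det_ne_zero hdet
  have e : (fun i => g (n i + t • m i)) = fun i => (t • M + 1) i := by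
    funext i
    rw [map_add, map_smul, hgn]
    ext j
    have e1 : (1 : Matrix ι ι K) i j = (Pi.single i 1 : ι → K) j := by
      rw [Matrix.one_apply, Pi.single_apply]
      simp [eq_comm]
    rw [Matrix.add_apply, Matrix.smul_apply, e1, add_comm]
    rfl
  refine LinearIndependent.of_comp g ?_
  change LinearIndependent K (fun i => g (n i + t • m i))
  rw [e]
  exact hrows

/-- the same with one vector which is not moved -/
theorem deform_cons {K : Type*} [Field K] {L : Type*} [AddCommGroup L] [Module K L] {r : ℕ}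
    (hK : ∀ s : Finset K, s.card ≤ r + 1 → ∃ t, t ∉ s)
    (p : L) (n m : Fin r → L)
    (hn : LinearIndependent K (Fin.cons p n : Fin (r + 1) → L)) :
    ∃ t : K, t ≠ 0 ∧
      LinearIndependent K (Fin.cons p (fun i => n i + t • m i) : Fin (r + 1) → L) := by
  classical
  rw [linearIndependent_finCons] at hn
  obtain ⟨hn1, hn2⟩ := hn
  have hp0 : p ≠ 0 := by
    rintro rfl
    exact hn2 (Submodule.zero_mem _)
  have hdis : Disjoint (Submodule.span K (Set.range n)) (LinearMap.ker (K ∙ p).mkQ) := by
    rw [Submodule.ker_mkQ, Submodule.disjoint_def]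
    intro x hx hx'
    obtain ⟨a, rfl⟩ := Submodule.mem_span_singleton.1 hx'
    by_cases ha : a = 0
    · rw [ha, zero_smul]
    · exact absurd ((Submodule.smul_mem_iff _ ha).1 hx) hn2
  obtain ⟨t, ht0, hli⟩ := deform (by rwa [Fintype.card_fin]) (fun i => (K ∙ p).mkQ (n i))
    (fun i => (K ∙ p).mkQ (m i)) (hn1.map hdis)
  have e : (fun i => (K ∙ p).mkQ (n i) + t • (K ∙ p).mkQ (m i)) =
      fun i => (K ∙ p).mkQ (n i + t • m i) := by
    funext i
    rw [map_add, map_smul]
  rw [e] at hli
  refine ⟨t, ht0, ?_⟩
  rw [linearIndependent_finCons]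
  refine ⟨LinearIndependent.of_comp (K ∙ p).mkQ hli, fun h => ?_⟩
  obtain ⟨a, ha⟩ := (Submodule.mem_span_range_iff_exists_fun K).1 h
  have h1 : ∑ i, a i • (K ∙ p).mkQ (n i + t • m i) = 0 := by
    have h2 := congrArg (K ∙ p).mkQ ha
    rw [map_sum] at h2
    simp only [map_smul] at h2
    rw [h2]
    exact (Submodule.Quotient.mk_eq_zero _).2 (Submodule.mem_span_singleton_self p)
  have h3 := Fintype.linearIndependent_iff.1 hli a h1
  apply hp0
  rw [← ha]
  exact Finset.sum_eq_zero fun i _ => by rw [h3 i, zero_smul]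

end Pool.Agent.Y56.BK
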