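import Pool.Agent.H89R3.BK.Fin
import Pool.Agent.Y56.BK.LA

set_option autoImplicit false

namespace Pool.Agent.Y56.BK

open H89R3.BK TensorProduct

variable {K : Type} [Field K] {L : Type} [LieRing L] [LieAlgebra K L]

/-- the bracket on the tensor square -/
noncomputable def br : L ⊗[K] L →ₗ[K] L :=
  TensorProduct.lift (LinearMap.mk₂ K (fun x y => ⁅x, y⁆) (fun _ _ _ => add_lie _ _ _)
    (fun _ _ _ => smul_lie _ _ _) (fun _ _ _ => lie_add _ _ _) (fun _ _ _ => lie_smul _ _ _))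

theorem br_tmul (x y : L) : br (x ⊗ₜ[K] y) = ⁅x, y⁆ := by
  rw [br, TensorProduct.lift.tmul]; rfl

/-- contraction with a linear functional -/
noncomputable def kap (θ : L →ₗ[K] K) : L ⊗[K] L →ₗ[K] L :=
  TensorProduct.lift (LinearMap.mk₂ K (fun x y => θ x • y - θ y • x)
    (fun x x' y => by simp only [map_add, add_smul, smul_add]; abel)
    (fun c x y => by simp only [map_smul, smul_eq_mul, mul_smul, smul_sub, smul_comm c])
    (fun x y y' => by simp only [map_add, add_smul, smul_add]; abel)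
    (fun c x y => by simp only [map_smul, smul_eq_mul, mul_smul, smul_sub, smul_comm c]))

theorem kap_tmul (θ : L →ₗ[K] K) (x y : L) : kap θ (x ⊗ₜ[K] y) = θ x • y - θ y • x := by
  rw [kap, TensorProduct.lift.tmul]; rfl

theorem kap_add (α γ : L →ₗ[K] K) (t : K) (τ : L ⊗[K] L) :
    kap (α + t • γ) τ = kap α τ + t • kap γ τ := by
  induction τ using TensorProduct.induction_on with
  | zero => simp
  | tmul x y =>
    rw [kap_tmul, kap_tmul, kap_tmul]
    simp only [LinearMap.add_apply, LinearMap.smul_apply, smul_eq_mul, add_smul, mul_smul, smul_sub]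
    abel
  | add a b ha hb => rw [map_add, map_add, map_add, ha, hb, smul_add]; abel

/-- tensors with entries in a subspace -/
def TS (W : Submodule K L) : Submodule K (L ⊗[K] L) :=
  Submodule.span K {τ | ∃ x ∈ W, ∃ y ∈ W, τ = x ⊗ₜ[K] y}

theorem TS_mono {W W' : Submodule K L} (h : W ≤ W') : TS W ≤ TS W' :=
  Submodule.span_mono (by rintro _ ⟨x, hx, y, hy, rfl⟩; exact ⟨x, h hx, y, h hy, rfl⟩)

theorem tmul_mem_TS {W : Submodule K L} {x y : L} (hx : x ∈ W) (hy : y ∈ W) :
    x ⊗ₜ[K] y ∈ TS W := Submodule.subset_span ⟨x, hx, y, hy, rfl⟩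

theorem kap_mem {W : Submodule K L} (θ : L →ₗ[K] K) {τ : L ⊗[K] L} (hτ : τ ∈ TS W) :
    kap θ τ ∈ W := by
  induction hτ using Submodule.span_induction with
  | mem τ h =>
    obtain ⟨x, hx, y, hy, rfl⟩ := h
    rw [kap_tmul]
    exact W.sub_mem (W.smul_mem _ hy) (W.smul_mem _ hx)
  | zero => rw [map_zero]; exact W.zero_mem
  | add a b _ _ ha hb => rw [map_add]; exact W.add_mem ha hb
  | smul c a _ ha => rw [map_smul]; exact W.smul_mem _ ha

theorem kap_zero {W : Submodule K L} (θ : L →ₗ[K] K) (hθ : ∀ x ∈ W, θ x = 0) {τ : L ⊗[K] L}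
    (hτ : τ ∈ TS W) : kap θ τ = 0 := by
  induction hτ using Submodule.span_induction with
  | mem τ h =>
    obtain ⟨x, hx, y, hy, rfl⟩ := h
    rw [kap_tmul, hθ x hx, hθ y hy, zero_smul, zero_smul, sub_zero]
  | zero => rw [map_zero]
  | add a b _ _ ha hb => rw [map_add, ha, hb, add_zero]
  | smul c a _ ha => rw [map_smul, ha, smul_zero]

theorem BB_eq {W : Submodule K L} {z : L} (hz : z ∈ BB W) : ∃ σ ∈ TS W, br σ = z := by
  induction hz using Submodule.span_induction with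
  | mem z h =>
    obtain ⟨x, hx, y, hy, rfl⟩ := h
    exact ⟨_, tmul_mem_TS hx hy, br_tmul _ _⟩
  | zero => exact ⟨0, Submodule.zero_mem _, map_zero _⟩
  | add a b _ _ ha hb =>
    obtain ⟨σ, h1, h2⟩ := ha
    obtain ⟨τ, h3, h4⟩ := hb
    exact ⟨σ + τ, Submodule.add_mem _ h1 h3, by rw [map_add, h2, h4]⟩
  | smul c a _ ha =>
    obtain ⟨σ, h1, h2⟩ := ha
    exact ⟨c • σ, Submodule.smul_mem _ _ h1, by rw [map_smul, h2]⟩

/-- contraction of relations -/
theorem contract {W B : Submodule K L} (θ : L →ₗ[K] K) {v : L}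
    (hdec : ∀ x ∈ W, x - θ x • v ∈ B) {τ : L ⊗[K] L} (hτ : τ ∈ TS W) :
    kap θ τ ∈ B ∧ br τ - ⁅v, kap θ τ⁆ ∈ BB B := by
  induction hτ using Submodule.span_induction with
  | mem τ h =>
    obtain ⟨x, hx, y, hy, rfl⟩ := h
    obtain ⟨x', hx'⟩ : ∃ x', x' = x - θ x • v := ⟨_, rfl⟩
    obtain ⟨y', hy'⟩ : ∃ y', y' = y - θ y • v := ⟨_, rfl⟩
    have h1 : x' ∈ B := hx' ▸ hdec x hx
    have h2 : y' ∈ B := hy' ▸ hdec y hy
    have hxe : x = x' + θ x • v := by rw [hx']; abel
    have hye : y = y' + θ y • v := by rw [hy']; abel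
    have e1 : kap θ (x ⊗ₜ[K] y) = θ x • y' - θ y • x' := by
      rw [kap_tmul, hx', hy', smul_sub, smul_sub, smul_comm (θ y) (θ x) v]
      abel
    refine ⟨?_, ?_⟩
    · rw [e1]
      exact B.sub_mem (B.smul_mem _ h2) (B.smul_mem _ h1)
    · have e2 : br (x ⊗ₜ[K] y) - ⁅v, kap θ (x ⊗ₜ[K] y)⁆ = ⁅x', y'⁆ := by
        have e3 : ⁅x, y⁆ = ⁅x' + θ x • v, y' + θ y • v⁆ := by rw [← hxe, ← hye]
        rw [e1, br_tmul, e3]
        generalize θ x = a
        generalize θ y = b
        simp only [lie_add, add_lie, lie_smul, smul_lie, lie_sub, lie_self, smul_zero, add_zero]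
        rw [← lie_skew v x']
        simp only [smul_neg]
        abel
      rw [e2]
      exact Submodule.subset_span ⟨x', h1, y', h2, rfl⟩
  | zero =>
    rw [map_zero, map_zero, lie_zero, sub_zero]
    exact ⟨B.zero_mem, Submodule.zero_mem _⟩
  | add a b _ _ ha hb =>
    refine ⟨by rw [map_add]; exact B.add_mem ha.1 hb.1, ?_⟩
    have e : br (a + b) - ⁅v, kap θ (a + b)⁆ =
        (br a - ⁅v, kap θ a⁆) + (br b - ⁅v, kap θ b⁆) := by
      rw [map_add, map_add, lie_add]; abel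
    rw [e]
    exact Submodule.add_mem _ ha.2 hb.2
  | smul c a _ ha =>
    refine ⟨by rw [map_smul]; exact B.smul_mem _ ha.1, ?_⟩
    have e : br (c • a) - ⁅v, kap θ (c • a)⁆ = c • (br a - ⁅v, kap θ a⁆) := by
      rw [map_smul, map_smul, lie_smul, smul_sub]
    rw [e]
    exact Submodule.smul_mem _ _ ha.2

theorem contract_NN {W B : Submodule K L} (θ : L →ₗ[K] K) {v : L}
    (hdec : ∀ x ∈ W, x - θ x • v ∈ B) {τ : L ⊗[K] L} (hτ : τ ∈ TS W) (h0 : br τ = 0) :
    kap θ τ ∈ NN B v := by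
  obtain ⟨h1, h2⟩ := contract θ hdec hτ
  refine ⟨h1, ?_⟩
  rw [h0, zero_sub] at h2
  exact (Submodule.neg_mem_iff _).mp h2

/-- every element of `NN B v` is the contraction of a relation -/
theorem exists_rel {W B : Submodule K L} (hBW : B ≤ W) (θ : L →ₗ[K] K) {v : L} (hvW : v ∈ W)
    (hθB : ∀ x ∈ B, θ x = 0) (hθv : θ v = 1) {n : L} (hn : n ∈ NN B v) :
    ∃ τ ∈ TS W, br τ = 0 ∧ kap θ τ = n := by
  obtain ⟨h1, h2⟩ := hn
  obtain ⟨σ, hσ, hσ'⟩ := BB_eq h2
  refine ⟨v ⊗ₜ[K] n - σ, Submodule.sub_mem _ (tmul_mem_TS hvW (hBW h1)) (TS_mono hBW hσ), ?_, ?_⟩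
  · rw [map_sub, br_tmul, hσ', sub_self]
  · rw [map_sub, kap_tmul, kap_zero θ hθB hσ, hθv, hθB n h1, one_smul, zero_smul, sub_zero,
      sub_zero]

/-- **Main lemma.** If `NN B v` has the maximal dimension among all hyperplanes, then all the
relations of `B` live in `NN B v`. -/
theorem main_lemma {W B : Submodule K L} [FiniteDimensional K W] (hBW : B ≤ W) {v : L}
    (hvW : v ∈ W) (hvB : v ∉ B) (hdim : Module.finrank K W = Module.finrank K B + 1)
    (hK : ∀ s : Finset K, s.card + 1 ≤ Module.finrank K W → ∃ t, t ∉ s)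
    (hmax : ∀ B' ≤ W, ∀ v' ∈ W, v' ∉ B' → Module.finrank K W = Module.finrank K B' + 1 →
      Module.finrank K ↥(NN B' v') ≤ Module.finrank K ↥(NN B v))
    {C : Submodule K L} (hNC : NN B v ≤ C) (hCB : C ≤ B) {u : L} (hu : u ∈ B) (huC : u ∉ C) :
    NN C u = ⊥ := by
  classical
  rw [Submodule.eq_bot_iff]
  intro c hc
  by_contra hc0
  obtain ⟨hcC, hcB⟩ := hc
  obtain ⟨σ, hσ, hσ'⟩ := BB_eq hcB
  have hCW : C ≤ W := hCB.trans hBW
  -- the functional with kernel `B`
  obtain ⟨α, hα, hαv⟩ : ∃ α : L →ₗ[K] K, (∀ x ∈ B, α x = 0) ∧ α v = 1 := by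
    obtain ⟨f, hf, hf'⟩ := Submodule.exists_dual_map_eq_bot_of_notMem (p := B) hvB inferInstance
    refine ⟨(f v)⁻¹ • f, ?_, ?_⟩
    · intro x hx
      have : f x = 0 := by
        have h1 : f x ∈ Submodule.map f B := Submodule.mem_map_of_mem hx
        rw [hf'] at h1
        exact (Submodule.mem_bot K).1 h1
      rw [LinearMap.smul_apply, this, smul_zero]
    · rw [LinearMap.smul_apply, smul_eq_mul, inv_mul_cancel₀ hf]
  obtain ⟨γ, hγ⟩ : ∃ γ : L →ₗ[K] K, γ c = 1 := by
    obtain ⟨f, hf, -⟩ := Submodule.exists_dual_map_eq_bot_of_notMem (p := (⊥ : Submodule K L))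
      (x := c) (by rwa [Submodule.mem_bot]) inferInstance
    exact ⟨(f c)⁻¹ • f, by rw [LinearMap.smul_apply, smul_eq_mul, inv_mul_cancel₀ hf]⟩
  -- the extra relation
  set ρ : L ⊗[K] L := u ⊗ₜ[K] c - σ with hρ
  have hρB : ρ ∈ TS B := Submodule.sub_mem _ (tmul_mem_TS hu (hCB hcC)) (TS_mono hCB hσ)
  have hρ0 : br ρ = 0 := by rw [hρ, map_sub, br_tmul, hσ', sub_self]
  have hp : kap γ ρ ∉ C := by
    intro h
    rw [hρ, map_sub, kap_tmul, hγ, one_smul] at h
    apply huC
    have h1 := C.sub_mem (C.sub_mem (C.smul_mem (γ u) hcC) (kap_mem γ hσ)) h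
    have e : γ u • c - kap γ σ - (γ u • c - u - kap γ σ) = u := by abel
    rwa [e] at h1
  -- basis of `NN B v`
  have hfB : FiniteDimensional K B := Submodule.finiteDimensional_of_le hBW
  have hfN : FiniteDimensional K ↥(NN B v) := Submodule.finiteDimensional_of_le (NN_le B v)
  set r := Module.finrank K ↥(NN B v) with hr
  let b := Module.finBasis K ↥(NN B v)
  have hrel : ∀ i : Fin r, ∃ τ ∈ TS W, br τ = 0 ∧ kap α τ = (b i : L) := fun i =>
    exists_rel hBW α hvW hα hαv (b i).2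
  choose τ hτ1 hτ2 hτ3 using hrel
  have hbli : LinearIndependent K (fun i => (b i : L)) :=
    b.linearIndependent.map' (NN B v).subtype (Submodule.ker_subtype _)
  have hn : LinearIndependent K (Fin.cons (kap γ ρ) (fun i => (b i : L)) : Fin (r + 1) → L) := by
    rw [linearIndependent_finCons]
    refine ⟨hbli, fun h => hp ?_⟩
    have : Submodule.span K (Set.range fun i => (b i : L)) ≤ C := by
      rw [Submodule.span_le]
      rintro _ ⟨i, rfl⟩
      exact hNC (b i).2
    exact this h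
  have hrW : r + 2 ≤ Module.finrank K W := by
    have h1 : NN B v < B := lt_of_le_of_ne (NN_le B v) (by
      intro h
      exact huC (hNC (by rw [h]; exact hu)))
    have h2 := Submodule.finrank_lt_finrank_of_lt h1
    omega
  obtain ⟨t, ht0, hli⟩ := deform_cons (fun s hs => hK s (by omega))
    (kap γ ρ) (fun i => (b i : L)) (fun i => kap γ (τ i)) hn
  -- the new hyperplane
  set θ : L →ₗ[K] K := α + t • γ with hθ
  have hθc : θ c = t := by
    rw [hθ, LinearMap.add_apply, LinearMap.smul_apply, hα c (hCB hcC), hγ, zero_add, smul_eq_mul,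
      mul_one]
  have hθv' : θ (t⁻¹ • c) = 1 := by
    rw [map_smul, hθc, smul_eq_mul, inv_mul_cancel₀ ht0]
  have hv'W : t⁻¹ • c ∈ W := W.smul_mem _ (hCW hcC)
  let B' : Submodule K L := W ⊓ LinearMap.ker θ
  have hdec : ∀ x ∈ W, x - θ x • (t⁻¹ • c) ∈ B' := by
    intro x hx
    refine ⟨W.sub_mem hx (W.smul_mem _ hv'W), ?_⟩
    change θ (x - θ x • (t⁻¹ • c)) = 0
    rw [map_sub, map_smul, hθv', smul_eq_mul, mul_one, sub_self]
  have hv'B' : t⁻¹ • c ∉ B' := by
    intro h
    have h1 : θ (t⁻¹ • c) = 0 := h.2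
    rw [hθv'] at h1
    exact one_ne_zero h1
  have hsup : B' ⊔ K ∙ (t⁻¹ • c) = W := by
    apply le_antisymm
    · refine sup_le inf_le_left ?_
      rw [Submodule.span_singleton_le_iff_mem]
      exact hv'W
    · intro x hx
      rw [Submodule.mem_sup]
      exact ⟨_, hdec x hx, _, Submodule.smul_mem _ (θ x) (Submodule.mem_span_singleton_self _),
        by abel⟩
  have hfB' : FiniteDimensional K B' := Submodule.finiteDimensional_of_le inf_le_left
  have hdim' : Module.finrank K W = Module.finrank K B' + 1 := by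
    rw [← finrank_sup_span hv'B', hsup]
  have h1 := hmax B' inf_le_left _ hv'W hv'B' hdim'
  have hfN' : FiniteDimensional K ↥(NN B' (t⁻¹ • c)) :=
    Submodule.finiteDimensional_of_le (NN_le _ _)
  -- all the deformed vectors are in `NN B' v'`
  have hmem : ∀ i : Fin (r + 1), (Fin.cons (kap γ ρ) (fun i => (b i : L) + t • kap γ (τ i)) :
      Fin (r + 1) → L) i ∈ NN B' (t⁻¹ • c) := by
    intro i
    refine Fin.cases ?_ (fun i => ?_) i
    · rw [Fin.cons_zero]
      have h2 := contract_NN θ hdec (TS_mono hBW hρB) hρ0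
      rw [hθ, kap_add, kap_zero α hα hρB, zero_add] at h2
      have h3 := (NN B' (t⁻¹ • c)).smul_mem t⁻¹ h2
      rwa [smul_smul, inv_mul_cancel₀ ht0, one_smul] at h3
    · rw [Fin.cons_succ, ← hτ3 i, ← kap_add]
      exact contract_NN θ hdec (hτ1 i) (hτ2 i)
  have hli' : LinearIndependent K (fun i => (⟨_, hmem i⟩ : ↥(NN B' (t⁻¹ • c)))) :=
    LinearIndependent.of_comp (NN B' (t⁻¹ • c)).subtype hli
  have h4 := hli'.fintype_card_le_finrank
  rw [Fintype.card_fin] at h4
  omega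

end Pool.Agent.Y56.BK
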